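import Mathlib

/-!
# Curves on the unit sphere: the angle between two points is at most the length of a path
-/

open Real Set MeasureTheory Filter Topology InnerProductGeometry
open scoped ContDiff InnerProductSpace

namespace Pool.Agent.Y525.Frenet

variable {V : Type*} [NormedAddCommGroup V] [InnerProductSpace ℝ V]

theorem angle_eq_arcsin {x y : V} (hx : ‖x‖ = 1) (hy : ‖y‖ = 1) :
    angle x y = 2 * arcsin (‖y - x‖ / 2) := by
  have h0 := angle_nonneg x y
  have hpi := angle_le_pi x y
  have h1 : ‖y - x‖ ^ 2 = (2 * sin (angle x y / 2)) ^ 2 := by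
    rw [norm_sub_sq_real, hx, hy, real_inner_comm, inner_eq_cos_angle_of_norm_eq_one hx hy]
    have h2 := cos_sq' (angle x y / 2)
    have h3 := cos_two_mul (angle x y / 2)
    rw [show 2 * (angle x y / 2) = angle x y by ring] at h3
    nlinarith
  have hs : 0 ≤ sin (angle x y / 2) := sin_nonneg_of_nonneg_of_le_pi (by linarith) (by linarith)
  have h2 : ‖y - x‖ = 2 * sin (angle x y / 2) := by
    rw [← abs_of_nonneg (norm_nonneg (y - x)), ← abs_of_nonneg (by positivity :
      0 ≤ 2 * sin (angle x y / 2))]
    exact (sq_eq_sq_iff_abs_eq_abs _ _).1 h1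
  rw [h2, show 2 * sin (angle x y / 2) / 2 = sin (angle x y / 2) by ring,
    arcsin_sin (by linarith) (by linarith)]
  ring

/-- The angle between two points of a curve on the unit sphere is at most the length of the curve
between them. -/
theorem angle_le_integral {T : ℝ → V} (hT : ContDiff ℝ 1 T) (h1 : ∀ t, ‖T t‖ = 1) {a b : ℝ}
    (hab : a ≤ b) : angle (T a) (T b) ≤ ∫ t in a..b, ‖deriv T t‖ := by
  have hne : ∀ t, T t ≠ 0 := fun t h => by
    have := h1 t
    rw [h, norm_zero] at this
    exact zero_ne_one this
  have hcont : Continuous (deriv T) := hT.continuous_deriv le_rfl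
  have hcn : Continuous fun t => ‖deriv T t‖ := hcont.norm
  have hf : ContinuousOn (fun x => angle (T a) (T x)) (Icc a b) := by
    apply Continuous.continuousOn
    rw [continuous_iff_continuousAt]
    intro x
    have h2 : ContinuousAt (fun y : V × V => angle y.1 y.2) (T a, T x) :=
      continuousAt_angle (hne a) (hne x)
    exact ContinuousAt.comp (f := fun x => (T a, T x)) h2
      (continuousAt_const.prodMk hT.continuous.continuousAt)
  have hB : ∀ x, HasDerivAt (fun x => ∫ t in a..x, ‖deriv T t‖) ‖deriv T x‖ x := fun x =>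
    (hcn.integral_hasStrictDerivAt a x).hasDerivAt
  have key := image_le_of_liminf_slope_right_le_deriv_boundary (f := fun x => angle (T a) (T x))
    (a := a) (b := b) hf (B := fun x => ∫ t in a..x, ‖deriv T t‖) (B' := fun x => ‖deriv T x‖)
    (by simp [angle_self (hne a)])
    (fun x _ => (hB x).continuousAt.continuousWithinAt) (fun x _ => (hB x).hasDerivWithinAt)
    (fun x _ r hr => ?_)
  · exact key (right_mem_Icc.2 hab)
  · apply Eventually.frequently
    -- the derivative of the chord
    have hd : HasDerivWithinAt (fun z => ‖T z - T x‖) ‖deriv T x‖ (Ioi x) x := by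
      rw [hasDerivWithinAt_iff_tendsto_slope' (by simp)]
      have h2 : Tendsto (slope T x) (𝓝[>] x) (𝓝 (deriv T x)) := by
        have := ((hT.differentiable (by simp)) x).hasDerivAt.hasDerivWithinAt (s := Ioi x)
        rwa [hasDerivWithinAt_iff_tendsto_slope' (by simp)] at this
      refine h2.norm.congr' ?_
      filter_upwards [self_mem_nhdsWithin] with z hz
      have hz' : 0 < z - x := sub_pos.2 hz
      rw [slope_def_module, slope_def_field, norm_smul, norm_inv, Real.norm_of_nonneg hz'.le,
        sub_self, norm_zero, sub_zero]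
      field_simp
    have hd2 : HasDerivWithinAt (fun z => 2 * arcsin (‖T z - T x‖ / 2)) ‖deriv T x‖ (Ioi x) x := by
      have h3 : HasDerivAt arcsin 1 (‖T x - T x‖ / 2) := by
        rw [sub_self, norm_zero, zero_div]
        have := hasDerivAt_arcsin (x := 0) (by norm_num) (by norm_num)
        simpa using this
      have h4 : HasDerivWithinAt (fun z => 2 * arcsin (‖T z - T x‖ / 2))
          (2 * (1 * (‖deriv T x‖ / 2))) (Ioi x) x :=
        (HasDerivAt.comp_hasDerivWithinAt (h₂ := arcsin) (h := fun z => ‖T z - T x‖ / 2) x h3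
          (hd.div_const 2)).const_mul 2
      have h5 : 2 * (1 * (‖deriv T x‖ / 2)) = ‖deriv T x‖ := by ring
      rwa [h5] at h4
    rw [hasDerivWithinAt_iff_tendsto_slope' (by simp)] at hd2
    filter_upwards [hd2.eventually_lt_const hr, self_mem_nhdsWithin] with z hz hzx
    refine lt_of_le_of_lt ?_ hz
    have hz' : 0 < z - x := sub_pos.2 hzx
    rw [slope_def_field, slope_def_field]
    apply div_le_div_of_nonneg_right _ hz'.le
    rw [sub_self (T x), norm_zero, zero_div, arcsin_zero, mul_zero, sub_zero,
      ← angle_eq_arcsin (h1 x) (h1 z)]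
    have := angle_le_angle_add_angle (T a) (T x) (T z)
    linarith

/-- If `x` is on a path of length at most `π` from `p` to `q` then `⟨x, p + q⟩ ≥ 0`. -/
theorem inner_add_nonneg {x p q : V} (hx : ‖x‖ = 1) (hp : ‖p‖ = 1) (hq : ‖q‖ = 1)
    (h : angle p x + angle x q ≤ π) : 0 ≤ ⟪x, p + q⟫_ℝ := by
  rw [inner_add_right, inner_eq_cos_angle_of_norm_eq_one hx hp,
    inner_eq_cos_angle_of_norm_eq_one hx hq, angle_comm x p]
  have h1 : cos (π - angle p x) ≤ cos (angle x q) :=
    cos_le_cos_of_nonneg_of_le_pi (angle_nonneg _ _) (by linarith [angle_nonneg p x])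
      (by linarith)
  rw [cos_pi_sub] at h1
  linarith

end Pool.Agent.Y525.Frenet
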