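import Mathlib

/-!
# Nondegenerate closed curves in `ℝⁿ` and their Frenet frames
-/

open Real Set MeasureTheory
open scoped ContDiff InnerProductSpace

namespace Pool.Agent.Y525.Frenet

noncomputable section

/-- A smooth closed curve `S¹ = ℝ/2πℤ → ℝⁿ`: a smooth `2π`-periodic map. -/
def IsClosedCurve {n : ℕ} (γ : ℝ → EuclideanSpace ℝ (Fin n)) : Prop :=
  ContDiff ℝ ∞ γ ∧ Function.Periodic γ (2 * π)

/-- The curve is nondegenerate: `γ', γ'', …, γ⁽ⁿ⁾` are linearly independent at every point. -/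
def IsNondegenerate {n : ℕ} (γ : ℝ → EuclideanSpace ℝ (Fin n)) : Prop :=
  ∀ t, LinearIndependent ℝ (fun i : Fin n => iteratedDeriv (i + 1) γ t)

/-- The plane unit circle traversed `m` times, `c_m(t) = (cos mt, sin mt, 0, …, 0)`. -/
def circleCurve (n m : ℕ) (t : ℝ) : EuclideanSpace ℝ (Fin n) :=
  WithLp.toLp 2 fun i => if (i : ℕ) = 0 then cos (m * t) else if (i : ℕ) = 1 then sin (m * t) else 0

/-- Every `C^∞` neighbourhood of `c_m` contains a nondegenerate closed curve. (The sets of the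
curves whose derivatives of order at most `N` are uniformly `ε`-close to those of `c_m` form a
basis of neighbourhoods of `c_m`.) -/
def CanBePerturbed (n m : ℕ) : Prop :=
  ∀ (N : ℕ) (ε : ℝ), 0 < ε → ∃ γ : ℝ → EuclideanSpace ℝ (Fin n),
    IsClosedCurve γ ∧ IsNondegenerate γ ∧
      ∀ j ≤ N, ∀ t, ‖iteratedDeriv j γ t - iteratedDeriv j (circleCurve n m) t‖ < ε

/-- `m` is the number `μ(n)`: the least `m ≥ 1` such that every `C^∞` neighbourhood of `c_m` contains
a nondegenerate closed curve. -/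
def IsMu (n m : ℕ) : Prop := IsLeast {m : ℕ | 1 ≤ m ∧ CanBePerturbed n m} m

/-- The Frenet frame `e₀(t), …, e_{n-1}(t)` of the curve: the Gram-Schmidt orthonormalisation of
`γ'(t), γ''(t), …, γ⁽ⁿ⁾(t)`. -/
def frenetFrame {n : ℕ} (γ : ℝ → EuclideanSpace ℝ (Fin n)) (t : ℝ) :
    Fin n → EuclideanSpace ℝ (Fin n) :=
  InnerProductSpace.gramSchmidtNormed ℝ (fun i : Fin n => iteratedDeriv (i + 1) γ t)

/-- The curvature `κ` between the frame vectors with indices `i` and `j = i + 1`: the component of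
the derivative of `e_i` with respect to arc length in the direction `e_j`. -/
def curvature {n : ℕ} (γ : ℝ → EuclideanSpace ℝ (Fin n)) (i j : Fin n) (t : ℝ) : ℝ :=
  ⟪deriv (fun s => frenetFrame γ s i) t, frenetFrame γ t j⟫_ℝ / ‖deriv γ t‖

/-- The length of the Frenet frame, `∫ (κ₁² + ⋯ + κ_{n-1}²)^{1/2} ds` over one period, where `s` is
arc length, `ds = ‖γ'(t)‖ dt`. -/
def frameLength {n : ℕ} (γ : ℝ → EuclideanSpace ℝ (Fin n)) : ℝ :=
  ∫ t in (0 : ℝ)..(2 * π),
    sqrt (∑ i : Fin n, ∑ j : Fin n, if (j : ℕ) = i + 1 then curvature γ i j t ^ 2 else 0) *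
      ‖deriv γ t‖

end

end Pool.Agent.Y525.Frenet
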