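import Pool.Agent.Y525.Frenet.Mu
import Pool.Agent.Y525.Frenet.Angle

/-!
# The strict Fenchel inequality for nondegenerate closed curves
-/

open Real Set MeasureTheory Filter Topology InnerProductGeometry
open scoped ContDiff InnerProductSpace

namespace Pool.Agent.Y525.Frenet

noncomputable section

variable {n : ℕ}

/-- the unit tangent vector -/
def tang (γ : ℝ → EuclideanSpace ℝ (Fin n)) (t : ℝ) : EuclideanSpace ℝ (Fin n) :=
  ‖deriv γ t‖⁻¹ • deriv γ t

theorem contDiff_deriv_inf {F : Type*} [NormedAddCommGroup F] [NormedSpace ℝ F] {γ : ℝ → F}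
    (h : ContDiff ℝ ∞ γ) : ContDiff ℝ ∞ (deriv γ) := by
  have h1 : ContDiff ℝ (∞ + 1) γ := by simpa using h
  exact (contDiff_succ_iff_deriv.1 h1).2.2

theorem deriv_ne_zero {γ : ℝ → EuclideanSpace ℝ (Fin n)} (hn : 1 ≤ n) (hN : IsNondegenerate γ)
    (t : ℝ) : deriv γ t ≠ 0 := by
  have h := (hN t).ne_zero (⟨0, by omega⟩ : Fin n)
  simpa [iteratedDeriv_one] using h

theorem contDiff_tang {γ : ℝ → EuclideanSpace ℝ (Fin n)} (hn : 1 ≤ n) (hγ : ContDiff ℝ ∞ γ)
    (hN : IsNondegenerate γ) : ContDiff ℝ ∞ (tang γ) := by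
  have h := contDiff_deriv_inf hγ
  have h2 : ContDiff ℝ ∞ (fun t => ‖deriv γ t‖⁻¹) :=
    ContDiff.inv (h.norm ℝ fun t => deriv_ne_zero hn hN t) fun t =>
      norm_ne_zero_iff.2 (deriv_ne_zero hn hN t)
  exact h2.smul h

theorem norm_tang {γ : ℝ → EuclideanSpace ℝ (Fin n)} (hn : 1 ≤ n) (hN : IsNondegenerate γ)
    (t : ℝ) : ‖tang γ t‖ = 1 := by
  unfold tang
  rw [norm_smul, norm_inv, norm_norm, inv_mul_cancel₀ (norm_ne_zero_iff.2 (deriv_ne_zero hn hN t))]

theorem deriv_periodic {F : Type*} [NormedAddCommGroup F] [NormedSpace ℝ F] {γ : ℝ → F} {c : ℝ}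
    (h : Function.Periodic γ c) : Function.Periodic (deriv γ) c := by
  intro x
  have e : (fun y => γ (y + c)) = γ := funext h
  conv_rhs => rw [← e]
  rw [deriv_comp_add_const]

theorem tang_periodic {γ : ℝ → EuclideanSpace ℝ (Fin n)} (h : Function.Periodic γ (2 * π)) :
    Function.Periodic (tang γ) (2 * π) := by
  intro t
  unfold tang
  rw [deriv_periodic h]

/-- no nonzero vector is orthogonal to all tangent vectors -/
theorem eq_zero_of_orth {γ : ℝ → EuclideanSpace ℝ (Fin n)} (hγ : ContDiff ℝ ∞ γ)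
    (hN : IsNondegenerate γ) {w : EuclideanSpace ℝ (Fin n)} (h : ∀ t, ⟪deriv γ t, w⟫_ℝ = 0) :
    w = 0 := by
  have h1 := (isNondegenerate_iff hγ).1 hN 0 (fun i => w i) (fun j _ => ?_)
  · ext i
    exact congrFun h1 i
  · have e : (fun s => ∑ i, w i * γ s i) = fun s => ⟪γ s, w⟫_ℝ := by
      ext s
      rw [PiLp.inner_apply]
      refine Finset.sum_congr rfl fun i _ => ?_
      simp
    have hd : deriv (fun s => ⟪γ s, w⟫_ℝ) = fun _ => 0 := by
      ext s
      have h2 : HasDerivAt γ (deriv γ s) s := (hγ.differentiable (by simp) s).hasDerivAt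
      have h3 := h2.inner ℝ (hasDerivAt_const s w)
      rw [h3.deriv, inner_zero_right, zero_add, h s]
    rw [e, iteratedDeriv_succ', hd]
    rw [show (fun _ : ℝ => (0 : ℝ)) = fun s => 0 * (fun _ : ℝ => (0 : ℝ)) s by simp,
      iteratedDeriv_const_mul_inf contDiff_const, zero_mul]

theorem integral_tang {γ : ℝ → EuclideanSpace ℝ (Fin n)} (hn : 1 ≤ n) (hγ : IsClosedCurve γ)
    (hN : IsNondegenerate γ) (w : EuclideanSpace ℝ (Fin n)) (s : ℝ) :
    ∫ t in s..(s + 2 * π), ⟪tang γ t, w⟫_ℝ * ‖deriv γ t‖ = 0 := by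
  have e : ∀ t, ⟪tang γ t, w⟫_ℝ * ‖deriv γ t‖ = ⟪deriv γ t, w⟫_ℝ := by
    intro t
    unfold tang
    rw [real_inner_smul_left, mul_comm, ← mul_assoc,
      mul_inv_cancel₀ (norm_ne_zero_iff.2 (deriv_ne_zero hn hN t)), one_mul]
  simp only [e]
  have h1 : ∀ t ∈ uIcc s (s + 2 * π), HasDerivAt (fun s => ⟪γ s, w⟫_ℝ) (⟪deriv γ t, w⟫_ℝ) t := by
    intro t _
    have h2 : HasDerivAt γ (deriv γ t) t := (hγ.1.differentiable (by simp) t).hasDerivAt
    have h3 := h2.inner ℝ (hasDerivAt_const t w)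
    rwa [inner_zero_right, zero_add] at h3
  have hc : Continuous fun t => ⟪deriv γ t, w⟫_ℝ :=
    (contDiff_deriv_inf hγ.1).continuous.inner continuous_const
  rw [intervalIntegral.integral_eq_sub_of_hasDerivAt h1 (hc.intervalIntegrable _ _), hγ.2 s,
    sub_self]

/-- the total curvature is the length of the tangent indicatrix -/
def totalCurvature (γ : ℝ → EuclideanSpace ℝ (Fin n)) : ℝ :=
  ∫ t in (0 : ℝ)..(2 * π), ‖deriv (tang γ) t‖

theorem totalCurvature_eq {γ : ℝ → EuclideanSpace ℝ (Fin n)} (hγ : IsClosedCurve γ) (s : ℝ) :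
    ∫ t in s..(s + 2 * π), ‖deriv (tang γ) t‖ = totalCurvature γ := by
  have hp : Function.Periodic (fun t => ‖deriv (tang γ) t‖) (2 * π) := by
    intro t
    show ‖deriv (tang γ) (t + 2 * π)‖ = ‖deriv (tang γ) t‖
    rw [deriv_periodic (tang_periodic hγ.2)]
  have := hp.intervalIntegral_add_eq s 0
  rwa [zero_add] at this

/-- If the total curvature is at most `2π` then every point of the tangent indicatrix has an
antipodal point, at distance half the total length. -/
theorem exists_antipode {γ : ℝ → EuclideanSpace ℝ (Fin n)} (hn : 1 ≤ n) (hγ : IsClosedCurve γ)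
    (hN : IsNondegenerate γ) (h : totalCurvature γ ≤ 2 * π) (s : ℝ) :
    ∃ r, s ≤ r ∧ (∫ t in s..r, ‖deriv (tang γ) t‖) = totalCurvature γ / 2 ∧
      tang γ r = - tang γ s := by
  have hT1 : ContDiff ℝ 1 (tang γ) := (contDiff_tang hn hγ.1 hN).of_le (by exact_mod_cast le_top)
  have hc : Continuous fun t => ‖deriv (tang γ) t‖ := (hT1.continuous_deriv le_rfl).norm
  have hii : ∀ a b, IntervalIntegrable (fun t => ‖deriv (tang γ) t‖) volume a b := fun a b =>
    hc.intervalIntegrable a b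
  have hpi := pi_pos
  have htot := totalCurvature_eq hγ s
  have hnn : 0 ≤ totalCurvature γ := by
    rw [← htot]
    exact intervalIntegral.integral_nonneg (by linarith) fun _ _ => norm_nonneg _
  have hcont : ContinuousOn (fun r => ∫ t in s..r, ‖deriv (tang γ) t‖) (Icc s (s + 2 * π)) :=
    (intervalIntegral.continuous_primitive hii s).continuousOn
  obtain ⟨r, hr, hr2⟩ : totalCurvature γ / 2 ∈
      (fun r => ∫ t in s..r, ‖deriv (tang γ) t‖) '' Icc s (s + 2 * π) := by
    apply intermediate_value_Icc (by linarith) hcont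
    simp only [intervalIntegral.integral_same, htot]
    constructor <;> linarith
  refine ⟨r, hr.1, hr2, ?_⟩
  simp only at hr2
  have hn1 := norm_tang hn hN
  have hsum : (∫ t in s..r, ‖deriv (tang γ) t‖) + ∫ t in r..(s + 2 * π), ‖deriv (tang γ) t‖ =
      totalCurvature γ := by
    rw [intervalIntegral.integral_add_adjacent_intervals (hii _ _) (hii _ _), htot]
  have hnonneg : ∀ t ∈ Icc s (s + 2 * π), 0 ≤ ⟪tang γ t, tang γ s + tang γ r⟫_ℝ := by
    intro t ht
    rcases le_total t r with htr | htr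
    · apply inner_add_nonneg (hn1 _) (hn1 _) (hn1 _)
      have h1 := angle_le_integral hT1 hn1 ht.1
      have h2 := angle_le_integral hT1 hn1 htr
      have h3 := intervalIntegral.integral_add_adjacent_intervals (hii s t) (hii t r)
      linarith
    · rw [add_comm]
      apply inner_add_nonneg (hn1 _) (hn1 _) (hn1 _)
      have h1 := angle_le_integral hT1 hn1 htr
      have h2 := angle_le_integral hT1 hn1 ht.2
      rw [tang_periodic hγ.2] at h2
      have h3 := intervalIntegral.integral_add_adjacent_intervals (hii r t) (hii t (s + 2 * π))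
      linarith
  -- the integral vanishes, so the integrand does
  have hint := integral_tang hn hγ hN (tang γ s + tang γ r) s
  have hcf : Continuous fun t => ⟪tang γ t, tang γ s + tang γ r⟫_ℝ * ‖deriv γ t‖ :=
    (hT1.continuous.inner continuous_const).mul (contDiff_deriv_inf hγ.1).continuous.norm
  have hzero : ∀ t ∈ Icc s (s + 2 * π), ⟪deriv γ t, tang γ s + tang γ r⟫_ℝ = 0 := by
    intro t ht
    by_contra hne
    have hpos : 0 < ∫ t in s..(s + 2 * π), ⟪tang γ t, tang γ s + tang γ r⟫_ℝ * ‖deriv γ t‖ := by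
      apply intervalIntegral.integral_pos (by linarith) hcf.continuousOn
      · intro x hx
        exact mul_nonneg (hnonneg x ⟨hx.1.le, hx.2⟩) (norm_nonneg _)
      · refine ⟨t, ht, ?_⟩
        have hp := norm_pos_iff.2 (deriv_ne_zero hn hN t)
        have h4 := hnonneg t ht
        refine mul_pos (lt_of_le_of_ne h4 fun h0 => hne ?_) hp
        have : deriv γ t = ‖deriv γ t‖ • tang γ t := by
          unfold tang
          rw [smul_smul, mul_inv_cancel₀ hp.ne', one_smul]
        rw [this, real_inner_smul_left, ← h0, mul_zero]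
    exact hpos.ne' hint
  have hall : ∀ t, ⟪deriv γ t, tang γ s + tang γ r⟫_ℝ = 0 := by
    intro t
    have hp : Function.Periodic (fun t => ⟪deriv γ t, tang γ s + tang γ r⟫_ℝ) (2 * π) := by
      intro x
      show ⟪deriv γ (x + 2 * π), _⟫_ℝ = _
      rw [deriv_periodic hγ.2]
    obtain ⟨y, hy, hxy⟩ := hp.exists_mem_Ico (by positivity) t s
    rw [hxy]
    exact hzero y (Ico_subset_Icc_self hy)
  have h5 := eq_zero_of_orth hγ.1 hN hall
  rw [eq_neg_iff_add_eq_zero, add_comm]
  exact h5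

theorem triple {γ : ℝ → EuclideanSpace ℝ (Fin n)} (hn : 3 ≤ n) (hN : IsNondegenerate γ)
    (t a b c : ℝ) (h : a • deriv γ t + b • deriv (deriv γ) t + c • deriv (deriv (deriv γ)) t = 0) :
    a = 0 ∧ b = 0 ∧ c = 0 := by
  have h1 := (hN t).comp (Fin.castLE hn) (Fin.castLE_injective _)
  have h2 := Fintype.linearIndependent_iff.1 h1 ![a, b, c] (by
    rw [Fin.sum_univ_three]
    simpa [iteratedDeriv_succ, iteratedDeriv_zero] using h)
  exact ⟨h2 0, h2 1, h2 2⟩

/-- The strict Fenchel inequality. -/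
theorem fenchel {γ : ℝ → EuclideanSpace ℝ (Fin n)} (hn : 3 ≤ n) (hγ : IsClosedCurve γ)
    (hN : IsNondegenerate γ) : 2 * π < totalCurvature γ := by
  by_contra hcon
  push Not at hcon
  have hn1' : 1 ≤ n := by omega
  have hT := contDiff_tang hn1' hγ.1 hN
  have hT1 : ContDiff ℝ 1 (tang γ) := hT.of_le (by exact_mod_cast le_top)
  have hn1 := norm_tang hn1' hN
  have hc : Continuous fun t => ‖deriv (tang γ) t‖ := (hT1.continuous_deriv le_rfl).norm
  have hii : ∀ a b, IntervalIntegrable (fun t => ‖deriv (tang γ) t‖) volume a b := fun a b =>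
    hc.intervalIntegrable a b
  have hpi := pi_pos
  have hdiff : ∀ t, HasDerivAt (tang γ) (deriv (tang γ) t) t := fun t =>
    (hT1.differentiable (by simp) t).hasDerivAt
  have hTT : ∀ t, ⟪tang γ t, deriv (tang γ) t⟫_ℝ = 0 := by
    intro t
    have h1 := (hdiff t).inner ℝ (hdiff t)
    have h2 : (fun t => ⟪tang γ t, tang γ t⟫_ℝ) = fun _ => 1 := by
      ext x
      rw [real_inner_self_eq_norm_sq, hn1, one_pow]
    rw [h2] at h1
    have h3 := h1.unique (hasDerivAt_const t (1 : ℝ))
    have h4 := real_inner_comm (tang γ t) (deriv (tang γ) t)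
    linarith
  -- the angle equals the length of the arc
  have hangle : ∀ s t, s ≤ t → (∫ x in s..t, ‖deriv (tang γ) x‖) < π →
      ⟪tang γ s, tang γ t⟫_ℝ = cos (∫ x in s..t, ‖deriv (tang γ) x‖) := by
    intro s t hst hlt
    obtain ⟨r, hr, hr2, hr3⟩ := exists_antipode hn1' hγ hN hcon s
    have h1 := angle_le_integral hT1 hn1 hr
    rw [hr3, angle_neg_right, angle_self (fun h => by
      have := hn1 s
      rw [h, norm_zero] at this
      exact zero_ne_one this), sub_zero] at h1
    have htr : t ≤ r := by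
      by_contra hlt'
      push Not at hlt'
      have h3 := intervalIntegral.integral_add_adjacent_intervals (hii s r) (hii r t)
      have h4 : 0 ≤ ∫ x in r..t, ‖deriv (tang γ) x‖ :=
        intervalIntegral.integral_nonneg hlt'.le fun _ _ => norm_nonneg _
      linarith
    have h2 := angle_le_integral hT1 hn1 hst
    have h3 := angle_le_integral hT1 hn1 htr
    rw [hr3, angle_neg_right, angle_comm (tang γ t)] at h3
    have h4 := intervalIntegral.integral_add_adjacent_intervals (hii s t) (hii t r)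
    have h5 : angle (tang γ s) (tang γ t) = ∫ x in s..t, ‖deriv (tang γ) x‖ := by linarith
    rw [← h5, inner_eq_cos_angle_of_norm_eq_one (hn1 _) (hn1 _)]
  -- hence every earlier point lies in the osculating plane
  have hplane : ∀ s t, s < t → (∫ x in s..t, ‖deriv (tang γ) x‖) < π →
      ∀ w, ⟪tang γ t, w⟫_ℝ = 0 → ⟪deriv (tang γ) t, w⟫_ℝ = 0 → ⟪tang γ s, w⟫_ℝ = 0 := by
    intro s t hst hlt w hw1 hw2
    have hL : ∀ x, HasDerivAt (fun x => ∫ y in s..x, ‖deriv (tang γ) y‖) ‖deriv (tang γ) x‖ x :=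
      fun x => (hc.integral_hasStrictDerivAt s x).hasDerivAt
    have h1 : HasDerivAt (fun x => ⟪tang γ s, tang γ x⟫_ℝ) (⟪tang γ s, deriv (tang γ) t⟫_ℝ) t := by
      have := (hasDerivAt_const t (tang γ s)).inner ℝ (hdiff t)
      simpa using this
    have h2 : HasDerivAt (fun x => cos (∫ y in s..x, ‖deriv (tang γ) y‖))
        (-sin (∫ y in s..t, ‖deriv (tang γ) y‖) * ‖deriv (tang γ) t‖) t := (hL t).cos
    have h3 : (fun x => ⟪tang γ s, tang γ x⟫_ℝ) =ᶠ[𝓝 t]
        fun x => cos (∫ y in s..x, ‖deriv (tang γ) y‖) := by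
      have h4 : ∀ᶠ x in 𝓝 t, s < x := lt_mem_nhds hst
      have h5 : ∀ᶠ x in 𝓝 t, (∫ y in s..x, ‖deriv (tang γ) y‖) < π :=
        (hL t).continuousAt.eventually_lt_const hlt
      filter_upwards [h4, h5] with x hx hx'
      exact hangle s x hx.le hx'
    have h4 := h1.unique (h2.congr_of_eventuallyEq h3)
    have h5 := hangle s t hst.le hlt
    obtain ⟨l, hl⟩ : ∃ l, l = ∫ y in s..t, ‖deriv (tang γ) y‖ := ⟨_, rfl⟩
    rw [← hl] at h4 h5
    obtain ⟨v, hv⟩ : ∃ v, v = ‖deriv (tang γ) t‖ := ⟨_, rfl⟩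
    rw [← hv] at h4
    rcases eq_or_ne v 0 with hv0 | hv0
    · -- then the derivative vanishes; impossible but not needed: argue with the unit vector
      exfalso
      -- `T' = 0` contradicts nondegeneracy
      have hT0 : deriv (tang γ) t = 0 := norm_eq_zero.1 (hv ▸ hv0)
      have hli := hN t
      -- `γ' = ‖γ'‖ T`, so `γ'' = ‖γ'‖' T` is a multiple of `γ'`
      have hg : deriv γ = fun x => ‖deriv γ x‖ • tang γ x := by
        ext1 x
        have hp := norm_pos_iff.2 (deriv_ne_zero hn1' hN x)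
        unfold tang
        rw [smul_smul, mul_inv_cancel₀ hp.ne', one_smul]
      have hnd : HasDerivAt (fun x => ‖deriv γ x‖) (deriv (fun x => ‖deriv γ x‖) t) t := by
        apply DifferentiableAt.hasDerivAt
        exact ((contDiff_deriv_inf hγ.1).norm ℝ fun x =>
          deriv_ne_zero hn1' hN x).differentiable (by simp) t
      have h6 := hnd.smul (hdiff t)
      rw [hT0, smul_zero, zero_add] at h6
      have h7 : deriv (deriv γ) t = deriv (fun x => ‖deriv γ x‖) t • tang γ t := by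
        conv_lhs => rw [hg]
        exact h6.deriv
      have h9 := triple hn hN t (deriv (fun x => ‖deriv γ x‖) t) (-‖deriv γ t‖) 0 (by
        rw [h7]
        have e : deriv (fun x => ‖deriv γ x‖) t • deriv γ t =
            deriv (fun x => ‖deriv γ x‖) t • ‖deriv γ t‖ • tang γ t := by
          rw [← congrFun hg t]
        rw [e, smul_smul, smul_smul, ← add_smul, zero_smul, add_zero]
        have e : deriv (fun x => ‖deriv γ x‖) t * ‖deriv γ t‖ +
          -‖deriv γ t‖ * deriv (fun x => ‖deriv γ x‖) t = 0 := by ring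
        rw [e, zero_smul])
      exact norm_ne_zero_iff.2 (deriv_ne_zero hn1' hN t) (neg_eq_zero.1 h9.2.1)
    · have h6 : ‖tang γ s - (cos l • tang γ t - (sin l / v) • deriv (tang γ) t)‖ ^ 2 = 0 := by
        rw [← real_inner_self_eq_norm_sq]
        have e1 : ⟪tang γ s, tang γ s⟫_ℝ = 1 := by rw [real_inner_self_eq_norm_sq, hn1, one_pow]
        have e2 : ⟪tang γ t, tang γ t⟫_ℝ = 1 := by rw [real_inner_self_eq_norm_sq, hn1, one_pow]
        have e3 : ⟪deriv (tang γ) t, deriv (tang γ) t⟫_ℝ = v ^ 2 := by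
          rw [real_inner_self_eq_norm_sq, hv]
        have e4 := hTT t
        have e5 : ⟪deriv (tang γ) t, tang γ t⟫_ℝ = 0 := by rw [real_inner_comm]; exact e4
        have e6 : ⟪tang γ t, tang γ s⟫_ℝ = cos l := by rw [real_inner_comm]; exact h5
        have e7 : ⟪deriv (tang γ) t, tang γ s⟫_ℝ = -sin l * v := by rw [real_inner_comm]; exact h4
        simp only [inner_sub_left, inner_sub_right, real_inner_smul_left, real_inner_smul_right,
          e1, e2, e3, e4, e5, e6, e7, h5, h4]
        field_simp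
        have := sin_sq_add_cos_sq l
        linear_combination (-v) * this
      have h7 : tang γ s = cos l • tang γ t - (sin l / v) • deriv (tang γ) t :=
        sub_eq_zero.1 (norm_eq_zero.1 (pow_eq_zero_iff (two_ne_zero) |>.1 h6))
      rw [h7, inner_sub_left, real_inner_smul_left, real_inner_smul_left, hw1, hw2]
      ring
  -- a vector orthogonal to `γ'`, `γ''` and not to `γ'''`
  let K : Submodule ℝ (EuclideanSpace ℝ (Fin n)) :=
    Submodule.span ℝ {deriv γ 0, deriv (deriv γ) 0}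
  obtain ⟨w, hw, hw3⟩ : ∃ w ∈ Kᗮ, ⟪deriv (deriv (deriv γ)) 0, w⟫_ℝ ≠ 0 := by
    by_contra hno
    push Not at hno
    have h1 : deriv (deriv (deriv γ)) 0 ∈ Kᗮᗮ := by
      rw [Submodule.mem_orthogonal']
      exact hno
    rw [Submodule.orthogonal_orthogonal, Submodule.mem_span_pair] at h1
    obtain ⟨a, b, hab⟩ := h1
    have h2 := triple hn hN 0 a b (-1) (by rw [hab, neg_one_smul, add_neg_cancel])
    norm_num at h2
  have hw1 : ⟪deriv γ 0, w⟫_ℝ = 0 :=
    (Submodule.mem_orthogonal _ _).1 hw _ (Submodule.subset_span (by simp))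
  have hw2 : ⟪deriv (deriv γ) 0, w⟫_ℝ = 0 :=
    (Submodule.mem_orthogonal _ _).1 hw _ (Submodule.subset_span (by simp))
  have g1 := contDiff_deriv_inf hγ.1
  have g2 := contDiff_deriv_inf g1
  have g3 := contDiff_deriv_inf g2
  have hT0 : ⟪tang γ 0, w⟫_ℝ = 0 := by
    unfold tang
    rw [real_inner_smul_left, hw1, mul_zero]
  have hT1' : ⟪deriv (tang γ) 0, w⟫_ℝ = 0 := by
    have hinv : HasDerivAt (fun x => ‖deriv γ x‖⁻¹) (deriv (fun x => ‖deriv γ x‖⁻¹) 0) 0 := by
      apply DifferentiableAt.hasDerivAt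
      have : ContDiff ℝ ∞ fun x => ‖deriv γ x‖⁻¹ :=
        ContDiff.inv (g1.norm ℝ fun x => deriv_ne_zero hn1' hN x) fun x =>
          norm_ne_zero_iff.2 (deriv_ne_zero hn1' hN x)
      exact this.differentiable (by simp) 0
    have h1 := hinv.smul ((g1.differentiable (by simp) 0).hasDerivAt)
    have h2 : deriv (tang γ) 0 = _ := h1.deriv
    rw [h2, inner_add_left, real_inner_smul_left, real_inner_smul_left, hw1, hw2]
    ring
  -- the function `⟨γ', w⟩` vanishes to the left of `0`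
  have hleft : ∀ᶠ s in 𝓝[<] (0 : ℝ), ⟪deriv γ s, w⟫_ℝ = 0 := by
    have hcont : ContinuousAt (fun s => ∫ x in s..(0 : ℝ), ‖deriv (tang γ) x‖) 0 := by
      have h1 := intervalIntegral.continuous_primitive hii 0
      have h2 : (fun s => ∫ x in s..(0 : ℝ), ‖deriv (tang γ) x‖) =
          fun s => -∫ x in (0 : ℝ)..s, ‖deriv (tang γ) x‖ := by
        ext s
        rw [intervalIntegral.integral_symm]
      rw [h2]
      exact h1.neg.continuousAt
    have h1 : ∀ᶠ s in 𝓝 (0 : ℝ), (∫ x in s..(0 : ℝ), ‖deriv (tang γ) x‖) < π :=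
      hcont.eventually_lt_const (by simpa using hpi)
    filter_upwards [self_mem_nhdsWithin, mem_nhdsWithin_of_mem_nhds h1] with s hs hs2
    have h2 := hplane s 0 hs hs2 w hT0 hT1'
    unfold tang at h2
    rw [real_inner_smul_left] at h2
    exact (mul_eq_zero.1 h2).resolve_left
      (inv_ne_zero (norm_ne_zero_iff.2 (deriv_ne_zero hn1' hN s)))
  obtain ⟨δ, hδ, hδ2⟩ : ∃ δ < (0 : ℝ), ∀ s ∈ Ioo δ 0, ⟪deriv γ s, w⟫_ℝ = 0 := by
    obtain ⟨δ, hδ, hsub⟩ := mem_nhdsLT_iff_exists_Ioo_subset.1 hleft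
    exact ⟨δ, hδ, fun s hs => hsub hs⟩
  have hda : ∀ {f : ℝ → EuclideanSpace ℝ (Fin n)}, ContDiff ℝ ∞ f →
      (∀ s ∈ Ioo δ 0, ⟪f s, w⟫_ℝ = 0) → ∀ s ∈ Ioo δ 0, ⟪deriv f s, w⟫_ℝ = 0 := by
    intro f hf h s hs
    have h1 := ((hf.differentiable (by simp) s).hasDerivAt).inner ℝ (hasDerivAt_const s w)
    rw [inner_zero_right, zero_add] at h1
    have h2 : (fun s => ⟪f s, w⟫_ℝ) =ᶠ[𝓝 s] fun _ => 0 := by
      filter_upwards [isOpen_Ioo.mem_nhds hs] with x hx
      exact h x hx
    exact h1.unique ((hasDerivAt_const s (0 : ℝ)).congr_of_eventuallyEq h2)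
  have h3 := hda g2 (hda g1 hδ2)
  apply hw3
  have hcl : (0 : ℝ) ∈ closure (Ioo δ 0) := by
    rw [closure_Ioo hδ.ne]
    exact right_mem_Icc.2 hδ.le
  have hcc : Continuous fun s => ⟪deriv (deriv (deriv γ)) s, w⟫_ℝ :=
    g3.continuous.inner continuous_const
  have : IsClosed {s : ℝ | ⟪deriv (deriv (deriv γ)) s, w⟫_ℝ = 0} :=
    isClosed_eq hcc continuous_const
  exact closure_minimal (fun s hs => h3 s hs) this hcl

end

end Pool.Agent.Y525.Frenet
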