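import Pool.Agent.Y525.Frenet.Fenchel

/-!
# The length of the Frenet frame is at least the total curvature
-/

open Real Set MeasureTheory Filter Topology InnerProductGeometry
open scoped ContDiff InnerProductSpace

namespace Pool.Agent.Y525.Frenet

noncomputable section

variable {n : ℕ}

/-- the Gram-Schmidt process depends smoothly on the (linearly independent) vectors -/
theorem contDiff_gramSchmidt {f : ℝ → Fin n → EuclideanSpace ℝ (Fin n)}
    (hf : ∀ i, ContDiff ℝ ∞ (fun t => f t i)) (hli : ∀ t, LinearIndependent ℝ (f t)) (i : Fin n) :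
    ContDiff ℝ ∞ (fun t => InnerProductSpace.gramSchmidt ℝ (f t) i) := by
  induction i using WellFoundedLT.induction with
  | ind i ih =>
    have e : (fun t => InnerProductSpace.gramSchmidt ℝ (f t) i) = fun t => f t i -
        ∑ j ∈ Finset.Iio i, (⟪InnerProductSpace.gramSchmidt ℝ (f t) j, f t i⟫_ℝ /
          ‖InnerProductSpace.gramSchmidt ℝ (f t) j‖ ^ 2) •
            InnerProductSpace.gramSchmidt ℝ (f t) j := by
      ext1 t
      have h := InnerProductSpace.gramSchmidt_def'' ℝ (f t) i
      rw [eq_sub_iff_add_eq]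
      exact h.symm
    rw [e]
    apply (hf i).sub
    apply ContDiff.sum
    intro j hj
    have hj' := ih j (Finset.mem_Iio.1 hj)
    have hne : ∀ t, InnerProductSpace.gramSchmidt ℝ (f t) j ≠ 0 := fun t =>
      InnerProductSpace.gramSchmidt_ne_zero j (hli t)
    have h1 : ContDiff ℝ ∞ (fun t => ⟪InnerProductSpace.gramSchmidt ℝ (f t) j, f t i⟫_ℝ) :=
      hj'.inner ℝ (hf i)
    have h2 : ContDiff ℝ ∞ (fun t => ‖InnerProductSpace.gramSchmidt ℝ (f t) j‖ ^ 2) :=
      hj'.norm_sq ℝ
    have h3 : ContDiff ℝ ∞ (fun t => ⟪InnerProductSpace.gramSchmidt ℝ (f t) j, f t i⟫_ℝ /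
          ‖InnerProductSpace.gramSchmidt ℝ (f t) j‖ ^ 2) :=
      h1.div h2 fun t => pow_ne_zero 2 (norm_ne_zero_iff.2 (hne t))
    exact h3.smul hj'

theorem contDiff_frame {γ : ℝ → EuclideanSpace ℝ (Fin n)} (hγ : ContDiff ℝ ∞ γ)
    (hN : IsNondegenerate γ) (i : Fin n) : ContDiff ℝ ∞ (fun t => frenetFrame γ t i) := by
  have hf : ∀ i : Fin n, ContDiff ℝ ∞ (fun t => iteratedDeriv (i + 1) γ t) := by
    intro i
    have h : ∀ (j : ℕ) (F : ℝ → EuclideanSpace ℝ (Fin n)), ContDiff ℝ ∞ F →
        ContDiff ℝ ∞ (iteratedDeriv j F) := by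
      intro j
      induction j with
      | zero => intro F hF; simpa using hF
      | succ j ih =>
        intro F hF
        rw [iteratedDeriv_succ']
        exact ih _ (contDiff_deriv_inf hF)
    exact h _ _ hγ
  have h1 := contDiff_gramSchmidt (f := fun t (i : Fin n) => iteratedDeriv (i + 1) γ t) hf hN i
  have hne : ∀ t, InnerProductSpace.gramSchmidt ℝ
      (fun i : Fin n => iteratedDeriv (i + 1) γ t) i ≠ 0 := fun t =>
    InnerProductSpace.gramSchmidt_ne_zero i (hN t)
  have h2 : ContDiff ℝ ∞ (fun t => ‖InnerProductSpace.gramSchmidt ℝ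
      (fun i : Fin n => iteratedDeriv (i + 1) γ t) i‖⁻¹) :=
    ContDiff.inv (h1.norm ℝ hne) fun t => norm_ne_zero_iff.2 (hne t)
  exact h2.smul h1

theorem frame_zero {γ : ℝ → EuclideanSpace ℝ (Fin n)} (hn : 1 ≤ n) (t : ℝ) :
    frenetFrame γ t ⟨0, by omega⟩ = tang γ t := by
  unfold frenetFrame InnerProductSpace.gramSchmidtNormed tang
  have h1 : InnerProductSpace.gramSchmidt ℝ (fun i : Fin n => iteratedDeriv (i + 1) γ t)
      ⟨0, by omega⟩ = deriv γ t := by
    rw [InnerProductSpace.gramSchmidt_def]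
    have : Finset.Iio (⟨0, by omega⟩ : Fin n) = ∅ := by
      ext x
      simp [Fin.lt_def]
    rw [this, Finset.sum_empty, sub_zero]
    simp [iteratedDeriv_one]
  rw [h1]
  rfl

theorem norm_deriv_tang_le {γ : ℝ → EuclideanSpace ℝ (Fin n)} (hn : 3 ≤ n) (hγ : ContDiff ℝ ∞ γ)
    (hN : IsNondegenerate γ) (t : ℝ) :
    ‖deriv (tang γ) t‖ ≤
      sqrt (∑ i : Fin n, ∑ j : Fin n, if (j : ℕ) = i + 1 then curvature γ i j t ^ 2 else 0) *
        ‖deriv γ t‖ := by
  have hn1 : 1 ≤ n := by omega
  have hpos := norm_pos_iff.2 (deriv_ne_zero hn1 hN t)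
  let i0 : Fin n := ⟨0, by omega⟩
  let i1 : Fin n := ⟨1, by omega⟩
  have hT := contDiff_tang hn1 hγ hN
  have g1 := contDiff_deriv_inf hγ
  -- `T'` is in the span of `γ'`, `γ''`
  have hT' : ∃ a b : ℝ, deriv (tang γ) t = a • deriv γ t + b • deriv (deriv γ) t := by
    have hinv : HasDerivAt (fun x => ‖deriv γ x‖⁻¹) (deriv (fun x => ‖deriv γ x‖⁻¹) t) t := by
      apply DifferentiableAt.hasDerivAt
      have : ContDiff ℝ ∞ fun x => ‖deriv γ x‖⁻¹ :=
        ContDiff.inv (g1.norm ℝ fun x => deriv_ne_zero hn1 hN x) fun x =>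
          norm_ne_zero_iff.2 (deriv_ne_zero hn1 hN x)
      exact this.differentiable (by simp) t
    have h1 := hinv.smul ((g1.differentiable (by simp) t).hasDerivAt)
    have h2 : deriv (tang γ) t = _ := h1.deriv
    exact ⟨_, _, by rw [h2, add_comm]⟩
  have hort := InnerProductSpace.gramSchmidtNormed_orthonormal (𝕜 := ℝ) (hN t)
  -- it is in the span of `e₀`, `e₁`
  have hspan : deriv (tang γ) t ∈ Submodule.span ℝ
      (frenetFrame γ t '' {i | i ≤ i1}) := by
    have e : Submodule.span ℝ (frenetFrame γ t '' {i | i ≤ i1}) =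
        Submodule.span ℝ ((fun i : Fin n => iteratedDeriv (i + 1) γ t) '' {i | i ≤ i1}) := by
      unfold frenetFrame
      rw [InnerProductSpace.span_gramSchmidtNormed]
      exact InnerProductSpace.span_gramSchmidt_Iic ℝ _ i1
    rw [e]
    obtain ⟨a, b, hab⟩ := hT'
    rw [hab]
    apply Submodule.add_mem
    · apply Submodule.smul_mem
      apply Submodule.subset_span
      refine ⟨i0, ?_, ?_⟩
      · show i0 ≤ i1
        simp [i0, i1, Fin.le_def]
      · simp [i0, iteratedDeriv_one]
    · apply Submodule.smul_mem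
      apply Submodule.subset_span
      refine ⟨i1, le_refl i1, ?_⟩
      simp [i1, iteratedDeriv_succ, iteratedDeriv_zero]
  have hset : {i : Fin n | i ≤ i1} = {i0, i1} := by
    ext i
    simp only [mem_setOf_eq, mem_insert_iff, mem_singleton_iff, Fin.le_def, Fin.ext_iff, i0, i1]
    omega
  rw [hset, image_pair, Submodule.mem_span_pair] at hspan
  obtain ⟨a, b, hab⟩ := hspan
  have h01 : i0 ≠ i1 := by simp [i0, i1, Fin.ext_iff]
  have hTT : ⟪frenetFrame γ t i0, deriv (tang γ) t⟫_ℝ = 0 := by
    have hnn := norm_tang hn1 hN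
    have hd := (hT.differentiable (by simp) t).hasDerivAt
    have h1 := hd.inner ℝ hd
    have h2 : (fun t => ⟪tang γ t, tang γ t⟫_ℝ) = fun _ => 1 := by
      ext x
      rw [real_inner_self_eq_norm_sq, hnn, one_pow]
    rw [h2] at h1
    have h3 := h1.unique (hasDerivAt_const t (1 : ℝ))
    have h4 := real_inner_comm (tang γ t) (deriv (tang γ) t)
    have h5 : frenetFrame γ t i0 = tang γ t := frame_zero hn1 t
    rw [h5]
    linarith
  have ho1 : ‖frenetFrame γ t i0‖ = 1 := hort.1 i0
  have ho2 : ‖frenetFrame γ t i1‖ = 1 := hort.1 i1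
  have ho3 : ⟪frenetFrame γ t i0, frenetFrame γ t i1⟫_ℝ = 0 := hort.2 h01
  have ha : a = 0 := by
    rw [← hab, inner_add_right, real_inner_smul_right, real_inner_smul_right, ho3,
      real_inner_self_eq_norm_sq, ho1] at hTT
    linarith
  rw [ha, zero_smul, zero_add] at hab
  have hnorm : ‖deriv (tang γ) t‖ = |b| := by
    rw [← hab, norm_smul, ho2, mul_one, Real.norm_eq_abs]
  have hk : curvature γ i0 i1 t = b / ‖deriv γ t‖ := by
    unfold curvature
    have h5 : (fun s => frenetFrame γ s i0) = tang γ := by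
      ext1 s
      exact frame_zero hn1 s
    rw [h5, ← hab, real_inner_smul_left, real_inner_self_eq_norm_sq, ho2]
    ring
  have hle : curvature γ i0 i1 t ^ 2 ≤
      ∑ i : Fin n, ∑ j : Fin n, if (j : ℕ) = i + 1 then curvature γ i j t ^ 2 else 0 := by
    have h6 : ∀ i j : Fin n, 0 ≤ if (j : ℕ) = i + 1 then curvature γ i j t ^ 2 else 0 := by
      intro i j
      split_ifs
      · exact sq_nonneg _
      · exact le_rfl
    calc curvature γ i0 i1 t ^ 2
        = if (i1 : ℕ) = i0 + 1 then curvature γ i0 i1 t ^ 2 else 0 := by simp [i0, i1]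
      _ ≤ ∑ j : Fin n, if (j : ℕ) = i0 + 1 then curvature γ i0 j t ^ 2 else 0 :=
          Finset.single_le_sum (f := fun j : Fin n =>
            if (j : ℕ) = i0 + 1 then curvature γ i0 j t ^ 2 else 0)
            (fun j _ => h6 i0 j) (Finset.mem_univ i1)
      _ ≤ _ := Finset.single_le_sum (f := fun i : Fin n => ∑ j : Fin n,
            if (j : ℕ) = i + 1 then curvature γ i j t ^ 2 else 0)
            (fun i _ => Finset.sum_nonneg fun j _ => h6 i j) (Finset.mem_univ i0)
  calc ‖deriv (tang γ) t‖ = |curvature γ i0 i1 t| * ‖deriv γ t‖ := by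
        rw [hnorm, hk, abs_div, abs_of_pos hpos]
        field_simp
    _ ≤ _ := by
        apply mul_le_mul_of_nonneg_right _ hpos.le
        rw [← Real.sqrt_sq_eq_abs]
        exact Real.sqrt_le_sqrt hle

theorem continuous_integrand {γ : ℝ → EuclideanSpace ℝ (Fin n)} (hn : 1 ≤ n)
    (hγ : ContDiff ℝ ∞ γ) (hN : IsNondegenerate γ) :
    Continuous fun t =>
      sqrt (∑ i : Fin n, ∑ j : Fin n, if (j : ℕ) = i + 1 then curvature γ i j t ^ 2 else 0) *
        ‖deriv γ t‖ := by
  have g1 := contDiff_deriv_inf hγ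
  apply Continuous.mul _ g1.continuous.norm
  apply Continuous.sqrt
  apply continuous_finset_sum
  intro i _
  apply continuous_finset_sum
  intro j _
  split_ifs
  · apply Continuous.pow
    unfold curvature
    apply Continuous.div
    · exact (contDiff_deriv_inf (contDiff_frame hγ hN i)).continuous.inner
        (contDiff_frame hγ hN j).continuous
    · exact g1.continuous.norm
    · intro t
      exact norm_ne_zero_iff.2 (deriv_ne_zero hn hN t)
  · exact continuous_const

/-- The Frenet frame of a nondegenerate closed curve in `ℝⁿ`, `n ≥ 3`, is longer than `2π`. -/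
theorem two_pi_lt_frameLength {γ : ℝ → EuclideanSpace ℝ (Fin n)} (hn : 3 ≤ n)
    (hγ : IsClosedCurve γ) (hN : IsNondegenerate γ) : 2 * π < frameLength γ := by
  refine (fenchel hn hγ hN).trans_le ?_
  unfold totalCurvature frameLength
  have hT1 : ContDiff ℝ 1 (tang γ) :=
    (contDiff_tang (by omega) hγ.1 hN).of_le (by exact_mod_cast le_top)
  apply intervalIntegral.integral_mono_on (by positivity)
  · exact (hT1.continuous_deriv le_rfl).norm.intervalIntegrable _ _
  · exact (continuous_integrand (by omega) hγ.1 hN).intervalIntegrable _ _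
  · intro t _
    exact norm_deriv_tang_le hn hγ.1 hN t

end

end Pool.Agent.Y525.Frenet
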