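import Pool.Agent.Y525.Frenet.Step

/-!
# `μ(n) = 1` for `n ≥ 4`
-/

open Real Set MeasureTheory Filter Topology
open scoped ContDiff InnerProductSpace

namespace Pool.Agent.Y525.Frenet

noncomputable section

/-- components of iterated derivatives -/
theorem iteratedDeriv_coord {n : ℕ} {γ : ℝ → EuclideanSpace ℝ (Fin n)} (hγ : ContDiff ℝ ∞ γ)
    (j : ℕ) (t : ℝ) (i : Fin n) : iteratedDeriv j γ t i = iteratedDeriv j (fun s => γ s i) t := by
  have h := ContinuousLinearMap.iteratedFDeriv_comp_left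
    (EuclideanSpace.proj i : EuclideanSpace ℝ (Fin n) →L[ℝ] ℝ) (f := γ) (x := t) (i := j)
    (hγ.contDiffAt.of_le (by exact_mod_cast le_top)) le_rfl
  rw [iteratedDeriv_eq_iteratedFDeriv, iteratedDeriv_eq_iteratedFDeriv]
  have e : (fun s => γ s i) = (EuclideanSpace.proj i : EuclideanSpace ℝ (Fin n) →L[ℝ] ℝ) ∘ γ := rfl
  rw [e, h]
  rfl

theorem isNondegenerate_iff {n : ℕ} {γ : ℝ → EuclideanSpace ℝ (Fin n)} (hγ : ContDiff ℝ ∞ γ) :
    IsNondegenerate γ ↔ ∀ t (c : Fin n → ℝ),
      (∀ j < n, iteratedDeriv (j + 1) (fun s => ∑ i, c i * γ s i) t = 0) → c = 0 := by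
  have hcoord : ∀ i, ContDiff ℝ ∞ (fun s => γ s i) := fun i =>
    (EuclideanSpace.proj i : EuclideanSpace ℝ (Fin n) →L[ℝ] ℝ).contDiff.comp hγ
  have key : ∀ t (c : Fin n → ℝ) (j : ℕ), iteratedDeriv (j + 1) (fun s => ∑ i, c i * γ s i) t =
      ∑ i, iteratedDeriv (j + 1) γ t i * c i := by
    intro t c j
    rw [iteratedDeriv_sum_inf _ fun i => contDiff_const.mul (hcoord i)]
    refine Finset.sum_congr rfl fun i _ => ?_
    rw [iteratedDeriv_const_mul_inf (hcoord i), iteratedDeriv_coord hγ, mul_comm]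
  unfold IsNondegenerate
  refine forall_congr' fun t => ?_
  let M : Matrix (Fin n) (Fin n) ℝ := Matrix.of fun j i => iteratedDeriv (j + 1) γ t i
  have h1 : LinearIndependent ℝ (fun i : Fin n => iteratedDeriv (i + 1) γ t) ↔
      LinearIndependent ℝ M.row := by
    let e : EuclideanSpace ℝ (Fin n) ≃ₗ[ℝ] (Fin n → ℝ) := WithLp.linearEquiv 2 ℝ (Fin n → ℝ)
    have : M.row = e ∘ (fun i : Fin n => iteratedDeriv (i + 1) γ t) := by
      ext j i
      rfl
    rw [this]
    exact (LinearMap.linearIndependent_iff (e : EuclideanSpace ℝ (Fin n) →ₗ[ℝ] (Fin n → ℝ))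
      (LinearMap.ker_eq_bot.2 e.injective)).symm
  rw [h1, Matrix.linearIndependent_rows_iff_isUnit, Matrix.isUnit_iff_isUnit_det, isUnit_iff_ne_zero,
    ← not_iff_not, not_not, ← Matrix.exists_mulVec_eq_zero_iff]
  push Not
  constructor
  · rintro ⟨v, hv, hv0⟩
    refine ⟨v, fun j hj => ?_, hv⟩
    rw [key]
    exact congrFun hv0 ⟨j, hj⟩
  · rintro ⟨c, hc, hc0⟩
    refine ⟨c, hc0, ?_⟩
    ext j
    have := hc j j.2
    rw [key] at this
    exact this

/-- the perturbation of the unit circle -/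
def pert {k : ℕ} (g : Fin k → ℝ → ℝ) (ε : ℝ) (t : ℝ) : EuclideanSpace ℝ (Fin (2 + k)) :=
  WithLp.toLp 2 (Fin.append ![cos t, sin t] fun i => ε * g i t)

theorem pert_left {k : ℕ} (g : Fin k → ℝ → ℝ) (ε : ℝ) (t : ℝ) (i : Fin 2) :
    pert g ε t (Fin.castAdd k i) = ![cos t, sin t] i := by
  simp [pert]

theorem pert_right {k : ℕ} (g : Fin k → ℝ → ℝ) (ε : ℝ) (t : ℝ) (i : Fin k) :
    pert g ε t (Fin.natAdd 2 i) = ε * g i t := by
  simp [pert]

theorem contDiff_pert {k : ℕ} {g : Fin k → ℝ → ℝ} (hg : Good g) (ε : ℝ) :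
    ContDiff ℝ ∞ (pert g ε) := by
  rw [contDiff_euclidean]
  intro i
  refine Fin.addCases (fun i => ?_) (fun i => ?_) i
  · simp only [pert_left]
    fin_cases i
    · exact contDiff_cos
    · exact contDiff_sin
  · simp only [pert_right]
    exact contDiff_const.mul (hg.smooth i)

theorem closed_pert {k : ℕ} {g : Fin k → ℝ → ℝ} (hg : Good g) (ε : ℝ) :
    IsClosedCurve (pert g ε) := by
  refine ⟨contDiff_pert hg ε, fun t => ?_⟩
  ext i
  refine Fin.addCases (fun i => ?_) (fun i => ?_) i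
  · simp only [pert_left]
    fin_cases i
    · exact cos_periodic t
    · exact sin_periodic t
  · simp only [pert_right]
    rw [hg.periodic i t]

theorem trig_one (a b : ℝ) : (fun s => a * cos s + b * sin s) = trig 1 a b := by
  ext s
  simp [trig]

theorem nondeg_pert {k : ℕ} {g : Fin k → ℝ → ℝ} (hg : Good g) {ε : ℝ} (hε : ε ≠ 0) :
    IsNondegenerate (pert g ε) := by
  rw [isNondegenerate_iff (contDiff_pert hg ε)]
  intro t c h
  obtain ⟨f, hf⟩ : ∃ f : ℝ → ℝ, f = fun s => ∑ i, (c (Fin.natAdd 2 i) * ε) * g i s := ⟨_, rfl⟩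
  have hfs : ContDiff ℝ ∞ f := by
    rw [hf]
    exact ContDiff.sum fun i _ => contDiff_const.mul (hg.smooth i)
  have e : (fun s => ∑ i, c i * pert g ε s i) =
      fun s => trig 1 (c (Fin.castAdd k 0)) (c (Fin.castAdd k 1)) s + f s := by
    ext s
    rw [Fin.sum_univ_add, hf, Fin.sum_univ_two]
    simp only [pert_left, pert_right, trig, one_mul]
    congr 1
    exact Finset.sum_congr rfl fun i _ => by ring
  have hd : ∀ j, iteratedDeriv j (fun s => ∑ i, c i * pert g ε s i) t =
      iteratedDeriv j (trig 1 (c (Fin.castAdd k 0)) (c (Fin.castAdd k 1))) t +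
        iteratedDeriv j f t := by
    intro j
    rw [e, iteratedDeriv_add_inf (contDiff_trig _ _ _) hfs]
  have hc : (fun i => c (Fin.natAdd 2 i) * ε) = 0 := by
    apply hg.nondeg t
    intro j hj
    rw [← hf]
    have h1 := h (j + 2) (by omega)
    have h2 := h j (by omega)
    rw [hd] at h1 h2
    rw [show j + 2 + 1 = (j + 1) + 2 by ring, iteratedDeriv_two_trig] at h1
    unfold E
    rw [show j + 3 = (j + 1) + 2 by ring]
    linear_combination h1 + h2
  have hc' : ∀ i, c (Fin.natAdd 2 i) = 0 := by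
    intro i
    exact (mul_eq_zero.1 (congrFun hc i)).resolve_right hε
  have hf0 : f = fun _ => 0 := by
    rw [hf]
    ext s
    apply Finset.sum_eq_zero
    intro i _
    rw [hc' i, zero_mul, zero_mul]
  have hdf : ∀ j, iteratedDeriv j f t = 0 := by
    intro j
    rw [hf0, show (fun _ : ℝ => (0 : ℝ)) = fun s => 0 * (fun _ : ℝ => (0 : ℝ)) s by simp,
      iteratedDeriv_const_mul_inf contDiff_const, zero_mul]
  have h0 := h 0 (by omega)
  have h1 := h 1 (by omega)
  rw [hd, hdf, add_zero, zero_add, iteratedDeriv_one, deriv_trig] at h0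
  rw [hd, hdf, add_zero, iteratedDeriv_succ', deriv_trig, iteratedDeriv_one, deriv_trig] at h1
  simp only [trig, one_mul] at h0 h1
  have p := sin_sq_add_cos_sq t
  ext i
  refine Fin.addCases (fun i => ?_) (fun i => ?_) i
  · fin_cases i
    · change c (Fin.castAdd k 0) = 0
      linear_combination -cos t * h1 - sin t * h0 - c (Fin.castAdd k 0) * p
    · change c (Fin.castAdd k 1) = 0
      linear_combination -sin t * h1 + cos t * h0 - c (Fin.castAdd k 1) * p
  · exact hc' i

/-- the part of the perturbation orthogonal to the plane of the circle -/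
def gvec {k : ℕ} (g : Fin k → ℝ → ℝ) (t : ℝ) : EuclideanSpace ℝ (Fin (2 + k)) :=
  WithLp.toLp 2 (Fin.append (0 : Fin 2 → ℝ) fun i => g i t)

theorem contDiff_gvec {k : ℕ} {g : Fin k → ℝ → ℝ} (hg : Good g) : ContDiff ℝ ∞ (gvec g) := by
  rw [contDiff_euclidean]
  intro i
  refine Fin.addCases (fun i => ?_) (fun i => ?_) i
  · simp only [gvec, Fin.append_left]
    exact contDiff_const
  · simp only [gvec, Fin.append_right]
    exact hg.smooth i

theorem gvec_periodic {k : ℕ} {g : Fin k → ℝ → ℝ} (hg : Good g) :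
    Function.Periodic (gvec g) (2 * π) := by
  intro t
  ext i
  refine Fin.addCases (fun i => ?_) (fun i => ?_) i
  · simp [gvec]
  · simp only [gvec, Fin.append_right]
    rw [hg.periodic i t]

theorem pert_eq {k : ℕ} (g : Fin k → ℝ → ℝ) (ε : ℝ) :
    pert g ε = fun t => circleCurve (2 + k) 1 t + ε • gvec g t := by
  ext t i
  refine Fin.addCases (fun i => ?_) (fun i => ?_) i
  · rw [pert_left]
    change _ = circleCurve (2 + k) 1 t (Fin.castAdd k i) + ε * gvec g t (Fin.castAdd k i)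
    have h1 : gvec g t (Fin.castAdd k i) = 0 := by simp [gvec]
    rw [h1, mul_zero, add_zero]
    fin_cases i
    · change cos t = if (0 : ℕ) = 0 then cos ((1 : ℕ) * t) else
        if (0 : ℕ) = 1 then sin ((1 : ℕ) * t) else 0
      simp
    · change sin t = if (1 : ℕ) = 0 then cos ((1 : ℕ) * t) else
        if (1 : ℕ) = 1 then sin ((1 : ℕ) * t) else 0
      simp
  · rw [pert_right]
    change _ = circleCurve (2 + k) 1 t (Fin.natAdd 2 i) + ε * gvec g t (Fin.natAdd 2 i)
    have h1 : gvec g t (Fin.natAdd 2 i) = g i t := by simp [gvec]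
    have h2 : circleCurve (2 + k) 1 t (Fin.natAdd 2 i) = 0 := by
      change (if 2 + (i : ℕ) = 0 then cos ((1 : ℕ) * t) else
        if 2 + (i : ℕ) = 1 then sin ((1 : ℕ) * t) else (0 : ℝ)) = 0
      rw [if_neg (by omega), if_neg (by omega)]
    rw [h1, h2, zero_add]

theorem contDiff_circle (n m : ℕ) : ContDiff ℝ ∞ (circleCurve n m) := by
  rw [contDiff_euclidean]
  intro i
  simp only [circleCurve]
  split_ifs
  · fun_prop
  · fun_prop
  · fun_prop

theorem iteratedDeriv_bounded {k : ℕ} {g : Fin k → ℝ → ℝ} (hg : Good g) (j : ℕ) :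
    ∃ B : ℝ, 0 ≤ B ∧ ∀ t, ‖iteratedDeriv j (gvec g) t‖ ≤ B := by
  have hc : Continuous (iteratedDeriv j (gvec g)) :=
    (contDiff_gvec hg).continuous_iteratedDeriv j (by exact_mod_cast le_top)
  have hp : Function.Periodic (iteratedDeriv j (gvec g)) (2 * π) := by
    intro t
    ext i
    rw [iteratedDeriv_coord (contDiff_gvec hg), iteratedDeriv_coord (contDiff_gvec hg)]
    apply iteratedDeriv_periodic
    intro s
    have := congrArg (fun v : EuclideanSpace ℝ (Fin (2 + k)) => v i) (gvec_periodic hg s)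
    exact this
  have hb := hp.isBounded_of_continuous (by positivity) hc
  obtain ⟨B, hB⟩ := hb.exists_norm_le
  exact ⟨B, (norm_nonneg _).trans (hB _ (mem_range_self 0)), fun t => hB _ (mem_range_self t)⟩

theorem canBePerturbed (k : ℕ) (hk : 2 ≤ k) : CanBePerturbed (2 + k) 1 := by
  intro N ε hε
  obtain ⟨g, hg⟩ := exists_good k hk
  choose B hB0 hB using iteratedDeriv_bounded hg
  let C : ℝ := ∑ j ∈ Finset.range (N + 1), B j
  have hC0 : 0 ≤ C := Finset.sum_nonneg fun j _ => hB0 j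
  let δ : ℝ := ε / (C + 1)
  have hδ : 0 < δ := by positivity
  refine ⟨pert g δ, closed_pert hg δ, nondeg_pert hg hδ.ne', fun j hj t => ?_⟩
  have hjle : (j : WithTop ℕ∞) ≤ ∞ := by exact_mod_cast le_top
  have h1 : ContDiffAt ℝ j (fun t => δ • gvec g t) t :=
    ((contDiff_gvec hg).const_smul δ).contDiffAt.of_le hjle
  rw [pert_eq, iteratedDeriv_fun_add (f := circleCurve (2 + k) 1) (g := fun t => δ • gvec g t)
    ((contDiff_circle _ _).contDiffAt.of_le hjle) h1, add_sub_cancel_left,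
    iteratedDeriv_fun_const_smul ((contDiff_gvec hg).contDiffAt.of_le hjle), norm_smul,
    Real.norm_of_nonneg hδ.le]
  calc δ * ‖iteratedDeriv j (gvec g) t‖ ≤ δ * C := by
        apply mul_le_mul_of_nonneg_left _ hδ.le
        refine (hB j t).trans ?_
        exact Finset.single_le_sum (f := B) (fun i _ => hB0 i)
          (Finset.mem_range.2 (Nat.lt_succ_of_le hj))
    _ < δ * (C + 1) := by
        apply mul_lt_mul_of_pos_left _ hδ
        linarith
    _ = ε := by
        simp only [δ]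
        field_simp

/-- `μ(n) = 1` for all `n ≥ 4`. -/
theorem isMu_one (n : ℕ) (hn : 4 ≤ n) : IsMu n 1 := by
  obtain ⟨k, rfl⟩ : ∃ k, n = 2 + k := ⟨n - 2, by omega⟩
  exact ⟨⟨le_rfl, canBePerturbed k (by omega)⟩, fun m hm => hm.1⟩

end

end Pool.Agent.Y525.Frenet
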