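import Pool.Agent.Y525.Frenet.Trig

/-!
# Systems of every size `k ≥ 2`
-/

open Real Set MeasureTheory Filter Topology
open scoped ContDiff InnerProductSpace

namespace Pool.Agent.Y525.Frenet

noncomputable section

/-- The curve in `ℝ³` used for `k = 3`. -/
def g3 : Fin 3 → ℝ → ℝ :=
  ![fun s => trig 2 315 0 s + trig 6 3 0 s, fun s => trig 2 0 245 s + trig 6 0 3 s, trig 4 0 14]

theorem good_three : Good g3 where
  smooth i := by
    fin_cases i
    · exact (contDiff_trig _ _ _).add (contDiff_trig _ _ _)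
    · exact (contDiff_trig _ _ _).add (contDiff_trig _ _ _)
    · exact contDiff_trig _ _ _
  periodic i := by
    have h2 := fun a b => trig_periodic 2 a b
    have h4 := fun a b => trig_periodic 4 a b
    have h6 := fun a b => trig_periodic 6 a b
    push_cast at h2 h4 h6
    fin_cases i
    · exact (h2 315 0).add (h6 3 0)
    · exact (h2 0 245).add (h6 0 3)
    · exact h4 0 14
  nondeg t c h := by
    have hs : ∀ j, E j (fun s => ∑ i, c i * g3 i s) t =
        c 0 * (E j (trig 2 315 0) t + E j (trig 6 3 0) t) +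
        c 1 * (E j (trig 2 0 245) t + E j (trig 6 0 3) t) + c 2 * E j (trig 4 0 14) t := by
      intro j
      have e : (fun s => ∑ i, c i * g3 i s) = fun s =>
          (c 0 * (trig 2 315 0 s + trig 6 3 0 s) + c 1 * (trig 2 0 245 s + trig 6 0 3 s)) +
            c 2 * trig 4 0 14 s := by
        ext s
        simp [Fin.sum_univ_three, g3]
      have s1 := (contDiff_trig 2 315 0).add (contDiff_trig 6 3 0)
      have s2 := (contDiff_trig 2 0 245).add (contDiff_trig 6 0 3)
      have s3 := contDiff_trig 4 0 14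
      rw [e, E_add ((contDiff_const.mul s1).add (contDiff_const.mul s2)) (contDiff_const.mul s3),
        E_add (contDiff_const.mul s1) (contDiff_const.mul s2), E_const_mul s1, E_const_mul s2,
        E_const_mul s3, E_add (contDiff_trig _ _ _) (contDiff_trig _ _ _),
        E_add (contDiff_trig _ _ _) (contDiff_trig _ _ _)]
    have h0 := h 0 (by norm_num)
    have h1 := h 1 (by norm_num)
    have h2 := h 2 (by norm_num)
    rw [hs] at h0 h1 h2
    have t2 : ∀ k a b : ℝ, E 2 (trig k a b) t = -k ^ 2 * E 0 (trig k a b) t := fun k a b =>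
      E_two_trig k a b 0 t
    simp only [t2] at h2
    simp only [E_zero_trig, E_one_trig] at h0 h1 h2
    simp only [trig] at h0 h1 h2
    obtain ⟨x, hx⟩ : ∃ x, x = sin (2 * t) := ⟨_, rfl⟩
    obtain ⟨y, hy⟩ : ∃ y, y = cos (2 * t) := ⟨_, rfl⟩
    have p : x ^ 2 + y ^ 2 = 1 := by rw [hx, hy]; exact sin_sq_add_cos_sq _
    have s6 : sin (6 * t) = 3 * x - 4 * x ^ 3 := by
      rw [hx, show 6 * t = 3 * (2 * t) by ring, sin_three_mul]
    have c6 : cos (6 * t) = 4 * y ^ 3 - 3 * y := by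
      rw [hy, show 6 * t = 3 * (2 * t) by ring, cos_three_mul]
    have s4 : sin (4 * t) = 2 * x * y := by
      rw [hx, hy, show 4 * t = 2 * (2 * t) by ring, sin_two_mul]
    have c4 : cos (4 * t) = 2 * y ^ 2 - 1 := by
      rw [hy, show 4 * t = 2 * (2 * t) by ring, cos_two_mul]
    rw [s6, c6, s4, c4, ← hx, ← hy] at h0 h1 h2
    -- the three equations in terms of `x`, `y`
    have g0 : c 0 * (18 * x - 12 * x ^ 3) + c 1 * (2 * y - 12 * y ^ 3) +
        c 2 * (4 - 8 * y ^ 2) = 0 := by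
      linear_combination h0 / 210
    have g1 : c 0 * (36 * y ^ 3 - 18 * y) + c 1 * (34 * x - 36 * x ^ 3) +
        c 2 * (16 * x * y) = 0 := by
      linear_combination h1 / 420
    have g2 : c 0 * (108 * x ^ 3 - 90 * x) + c 1 * (108 * y ^ 3 - 74 * y) +
        c 2 * (32 * y ^ 2 - 16) = 0 := by
      linear_combination h2 / 840
    have hD : (18 * x - 12 * x ^ 3) * ((34 * x - 36 * x ^ 3) * (32 * y ^ 2 - 16) -
        (16 * x * y) * (108 * y ^ 3 - 74 * y)) -
        (2 * y - 12 * y ^ 3) * ((36 * y ^ 3 - 18 * y) * (32 * y ^ 2 - 16) -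
        (16 * x * y) * (108 * x ^ 3 - 90 * x)) +
        (4 - 8 * y ^ 2) * ((36 * y ^ 3 - 18 * y) * (108 * y ^ 3 - 74 * y) -
        (34 * x - 36 * x ^ 3) * (108 * x ^ 3 - 90 * x)) =
        16 * (96 - 72 * (2 * y ^ 2 - 1) ^ 2 + 3 * (2 * y ^ 2 - 1) ^ 3) := by
      linear_combination (336 + 480 * y ^ 2 + 18624 * y ^ 4 - 17280 * y ^ 6 - 2112 * x ^ 2 -
        15168 * x ^ 2 * y ^ 2 + 17280 * x ^ 2 * y ^ 4 + 8640 * x ^ 4 - 17280 * x ^ 4 * y ^ 2) * p
    have hpos : 0 < 16 * (96 - 72 * (2 * y ^ 2 - 1) ^ 2 + 3 * (2 * y ^ 2 - 1) ^ 3) := by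
      have hy1 : y ^ 2 ≤ 1 := by nlinarith [sq_nonneg x]
      have hC1 : 2 * y ^ 2 - 1 ≤ 1 := by linarith
      have hC2 : -1 ≤ 2 * y ^ 2 - 1 := by nlinarith [sq_nonneg y]
      generalize 2 * y ^ 2 - 1 = C at hC1 hC2
      have hCC : C ^ 2 ≤ 1 := by nlinarith
      nlinarith [mul_nonneg (sub_nonneg.2 hCC) (by linarith : (0 : ℝ) ≤ 1 + C)]
    obtain ⟨D, hDD⟩ : ∃ D, D = 16 * (96 - 72 * (2 * y ^ 2 - 1) ^ 2 + 3 * (2 * y ^ 2 - 1) ^ 3) :=
      ⟨_, rfl⟩
    rw [← hDD] at hD hpos
    have e0 : D * c 0 = 0 := by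
      rw [← hD]
      linear_combination ((34 * x - 36 * x ^ 3) * (32 * y ^ 2 - 16) -
        (16 * x * y) * (108 * y ^ 3 - 74 * y)) * g0 -
        ((2 * y - 12 * y ^ 3) * (32 * y ^ 2 - 16) - (4 - 8 * y ^ 2) * (108 * y ^ 3 - 74 * y)) * g1 +
        ((2 * y - 12 * y ^ 3) * (16 * x * y) - (4 - 8 * y ^ 2) * (34 * x - 36 * x ^ 3)) * g2
    have e1 : D * c 1 = 0 := by
      rw [← hD]
      linear_combination -((36 * y ^ 3 - 18 * y) * (32 * y ^ 2 - 16) -
        (16 * x * y) * (108 * x ^ 3 - 90 * x)) * g0 +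
        ((18 * x - 12 * x ^ 3) * (32 * y ^ 2 - 16) - (4 - 8 * y ^ 2) * (108 * x ^ 3 - 90 * x)) * g1 -
        ((18 * x - 12 * x ^ 3) * (16 * x * y) - (4 - 8 * y ^ 2) * (36 * y ^ 3 - 18 * y)) * g2
    have e2 : D * c 2 = 0 := by
      rw [← hD]
      linear_combination ((36 * y ^ 3 - 18 * y) * (108 * y ^ 3 - 74 * y) -
        (34 * x - 36 * x ^ 3) * (108 * x ^ 3 - 90 * x)) * g0 -
        ((18 * x - 12 * x ^ 3) * (108 * y ^ 3 - 74 * y) -
          (2 * y - 12 * y ^ 3) * (108 * x ^ 3 - 90 * x)) * g1 +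
        ((18 * x - 12 * x ^ 3) * (34 * x - 36 * x ^ 3) -
          (2 * y - 12 * y ^ 3) * (36 * y ^ 3 - 18 * y)) * g2
    ext i
    fin_cases i
    · exact (mul_eq_zero.1 e0).resolve_left hpos.ne'
    · exact (mul_eq_zero.1 e1).resolve_left hpos.ne'
    · exact (mul_eq_zero.1 e2).resolve_left hpos.ne'

/-- the matrix of the perturbed Wronskian -/
def WM {k : ℕ} (g : Fin k → ℝ → ℝ) (s t : ℝ) : Matrix (Fin k) (Fin k) ℝ :=
  Matrix.of fun j i => E j (g i) t + s * E (j + 2) (g i) t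

theorem continuous_WM {k : ℕ} {g : Fin k → ℝ → ℝ} (hg : ∀ i, ContDiff ℝ ∞ (g i)) :
    Continuous fun z : ℝ × ℝ => (WM g z.1 z.2).det := by
  apply Continuous.matrix_det
  apply continuous_matrix
  intro j i
  simp only [WM, Matrix.of_apply]
  exact ((continuous_E (hg i) _).comp continuous_snd).add
    (continuous_fst.mul ((continuous_E (hg i) _).comp continuous_snd))

theorem E_combination {k : ℕ} {g : Fin k → ℝ → ℝ} (hg : ∀ i, ContDiff ℝ ∞ (g i)) (c : Fin k → ℝ)
    (j : ℕ) (t : ℝ) : E j (fun s => ∑ i, c i * g i s) t = ∑ i, c i * E j (g i) t := by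
  rw [E_sum _ (fun i => contDiff_const.mul (hg i))]
  exact Finset.sum_congr rfl fun i _ => E_const_mul (hg i) _ _ _

theorem WM_zero {k : ℕ} {g : Fin k → ℝ → ℝ} (hg : Good g) (t : ℝ) : (WM g 0 t).det ≠ 0 := by
  intro h0
  obtain ⟨v, hv, hv0⟩ := Matrix.exists_mulVec_eq_zero_iff.2 h0
  apply hv
  apply hg.nondeg t v
  intro j hj
  rw [E_combination hg.smooth]
  have := congrFun hv0 ⟨j, hj⟩
  simp only [Matrix.mulVec, dotProduct, WM, Matrix.of_apply, zero_mul, add_zero,
    Pi.zero_apply] at this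
  rw [← this]
  exact Finset.sum_congr rfl fun i _ => mul_comm _ _

theorem exists_large {k : ℕ} {g : Fin k → ℝ → ℝ} (hg : Good g) :
    ∃ l : ℕ, 2 ≤ l ∧ ∀ t, (WM g (((l : ℝ) ^ 2)⁻¹) t).det ≠ 0 := by
  have h1 : ∀ᶠ s : ℝ in 𝓝 0, ∀ t ∈ Icc (0 : ℝ) (2 * π), (WM g s t).det ≠ 0 := by
    apply isCompact_Icc.eventually_forall_of_forall_eventually
    intro t _
    have h2 : (WM g (0, t).1 (0, t).2).det ≠ 0 := WM_zero hg t
    exact (continuous_WM hg.smooth).continuousAt.eventually_ne h2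
  have h3 : Tendsto (fun l : ℕ => (((l : ℝ) ^ 2)⁻¹)) atTop (𝓝 0) := by
    apply Tendsto.inv_tendsto_atTop
    exact (tendsto_pow_atTop two_ne_zero).comp tendsto_natCast_atTop_atTop
  obtain ⟨l, hl, hl2⟩ := ((h3.eventually h1).and (eventually_ge_atTop 2)).exists
  refine ⟨l, hl2, fun t => ?_⟩
  obtain ⟨t', ht', e⟩ : ∃ t' ∈ Ico (0 : ℝ) (2 * π), WM g (((l : ℝ) ^ 2)⁻¹) t =
      WM g (((l : ℝ) ^ 2)⁻¹) t' := by
    have hp : Function.Periodic (fun t => WM g (((l : ℝ) ^ 2)⁻¹) t) (2 * π) := by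
      intro t
      ext j i
      simp only [WM, Matrix.of_apply]
      rw [E_periodic (hg.periodic i), E_periodic (hg.periodic i)]
    exact hp.exists_mem_Ico₀ (by positivity) t
  rw [e]
  exact hl t' (Ico_subset_Icc_self ht')

/-- The system `g` extended by `cos(lt)`, `sin(lt)`. -/
def extend {k : ℕ} (g : Fin k → ℝ → ℝ) (l : ℝ) : Fin (k + 2) → ℝ → ℝ :=
  Fin.append g ![trig l 1 0, trig l 0 1]

theorem good_extend {k : ℕ} {g : Fin k → ℝ → ℝ} (hg : Good g) {l : ℕ} (hl : 2 ≤ l)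
    (hW : ∀ t, (WM g (((l : ℝ) ^ 2)⁻¹) t).det ≠ 0) : Good (extend g l) where
  smooth i := by
    refine Fin.addCases (fun i => ?_) (fun i => ?_) i
    · simp only [extend, Fin.append_left]
      exact hg.smooth i
    · simp only [extend, Fin.append_right]
      fin_cases i <;> exact contDiff_trig _ _ _
  periodic i := by
    refine Fin.addCases (fun i => ?_) (fun i => ?_) i
    · simp only [extend, Fin.append_left]
      exact hg.periodic i
    · simp only [extend, Fin.append_right]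
      fin_cases i <;> exact trig_periodic _ _ _
  nondeg t c h := by
    have hl' : (2 : ℝ) ≤ l := by exact_mod_cast hl
    have hl0 : (l : ℝ) ≠ 0 := by positivity
    have hl1 : 1 - (l : ℝ) ^ 2 ≠ 0 := by nlinarith
    obtain ⟨f, hf⟩ : ∃ f : ℝ → ℝ, f = fun s => ∑ i, c (Fin.castAdd 2 i) * g i s := ⟨_, rfl⟩
    have hfs : ContDiff ℝ ∞ f := by
      rw [hf]
      exact ContDiff.sum fun i _ => contDiff_const.mul (hg.smooth i)
    have e : (fun s => ∑ i, c i * extend g l i s) =
        fun s => f s + trig l (c (Fin.natAdd k 0)) (c (Fin.natAdd k 1)) s := by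
      ext s
      rw [Fin.sum_univ_add, hf]
      simp only [extend, Fin.append_left, Fin.append_right, Fin.sum_univ_two]
      simp [trig]
    have hE : ∀ j, E j (fun s => ∑ i, c i * extend g l i s) t =
        E j f t + E j (trig l (c (Fin.natAdd k 0)) (c (Fin.natAdd k 1))) t := by
      intro j
      rw [e, E_add hfs (contDiff_trig _ _ _)]
    have hc : (fun i => c (Fin.castAdd 2 i)) = 0 := by
      by_contra hne
      apply hW t
      apply Matrix.exists_mulVec_eq_zero_iff.1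
      refine ⟨_, hne, ?_⟩
      ext j
      have h1 := h j (by omega)
      have h2 := h (j + 2) (by omega)
      rw [hE] at h1 h2
      rw [E_two_trig] at h2
      have h3 : E j f t + (((l : ℝ) ^ 2)⁻¹) * E (j + 2) f t = 0 := by
        field_simp
        linear_combination (l : ℝ) ^ 2 * h1 + h2
      rw [hf, E_combination hg.smooth, E_combination hg.smooth, Finset.mul_sum,
        ← Finset.sum_add_distrib] at h3
      simp only [Matrix.mulVec, dotProduct, WM, Matrix.of_apply, Pi.zero_apply]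
      rw [← h3]
      exact Finset.sum_congr rfl fun i _ => by ring
    have hf0 : f = fun _ => 0 := by
      rw [hf]
      ext s
      apply Finset.sum_eq_zero
      intro i _
      have := congrFun hc i
      simp only [Pi.zero_apply] at this
      rw [this, zero_mul]
    have hEf : ∀ j, E j f t = 0 := by
      intro j
      rw [hf0, show (fun _ : ℝ => (0 : ℝ)) = fun s => 0 * (fun _ : ℝ => (0 : ℝ)) s by simp,
        E_const_mul contDiff_const, zero_mul]
    have h0 := h 0 (by omega)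
    have h1 := h 1 (by omega)
    rw [hE, hEf, zero_add] at h0 h1
    obtain ⟨ha, hb⟩ := trig_pair hl0 hl1 h0 h1
    ext i
    refine Fin.addCases (fun i => ?_) (fun i => ?_) i
    · exact congrFun hc i
    · fin_cases i
      · exact ha
      · exact hb

theorem exists_good (k : ℕ) (hk : 2 ≤ k) : ∃ g : Fin k → ℝ → ℝ, Good g := by
  induction k using Nat.strong_induction_on with
  | _ k ih =>
    rcases Nat.lt_or_ge k 4 with h4 | h4
    · have : k = 2 ∨ k = 3 := by omega
      rcases this with rfl | rfl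
      · exact ⟨_, good_two⟩
      · exact ⟨_, good_three⟩
    · obtain ⟨m, rfl⟩ : ∃ m, k = m + 2 := ⟨k - 2, by omega⟩
      obtain ⟨g, hg⟩ := ih m (by omega) (by omega)
      obtain ⟨l, hl, hW⟩ := exists_large hg
      exact ⟨extend g l, good_extend hg hl hW⟩

end

end Pool.Agent.Y525.Frenet
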