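import Pool.Agent.Y525.Frenet.Defs

/-!
# Systems of periodic functions with nonvanishing Wronskian
-/

open Real Set MeasureTheory Filter Topology
open scoped ContDiff InnerProductSpace

namespace Pool.Agent.Y525.Frenet

noncomputable section

theorem contDiff_inf_deriv {f : ℝ → ℝ} (h : ContDiff ℝ ∞ f) : ContDiff ℝ ∞ (deriv f) := by
  have h1 : ContDiff ℝ (∞ + 1) f := by simpa using h
  exact (contDiff_succ_iff_deriv.1 h1).2.2

theorem contDiff_inf_iteratedDeriv {f : ℝ → ℝ} (h : ContDiff ℝ ∞ f) (j : ℕ) :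
    ContDiff ℝ ∞ (iteratedDeriv j f) := by
  induction j generalizing f with
  | zero => simpa using h
  | succ j ih =>
    rw [iteratedDeriv_succ']
    exact ih (contDiff_inf_deriv h)

theorem diff_of_inf {f : ℝ → ℝ} (h : ContDiff ℝ ∞ f) : Differentiable ℝ f :=
  h.differentiable (by simp)

theorem iteratedDeriv_add_inf {f g : ℝ → ℝ} (hf : ContDiff ℝ ∞ f) (hg : ContDiff ℝ ∞ g) (j : ℕ)
    (t : ℝ) : iteratedDeriv j (fun s => f s + g s) t = iteratedDeriv j f t + iteratedDeriv j g t := by
  induction j generalizing f g with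
  | zero => simp
  | succ j ih =>
    have e : deriv (fun s => f s + g s) = fun s => deriv f s + deriv g s := by
      ext s
      exact deriv_fun_add (diff_of_inf hf s) (diff_of_inf hg s)
    rw [iteratedDeriv_succ', iteratedDeriv_succ', iteratedDeriv_succ', e,
      ih (contDiff_inf_deriv hf) (contDiff_inf_deriv hg)]

theorem iteratedDeriv_const_mul_inf {f : ℝ → ℝ} (hf : ContDiff ℝ ∞ f) (c : ℝ) (j : ℕ)
    (t : ℝ) : iteratedDeriv j (fun s => c * f s) t = c * iteratedDeriv j f t := by
  induction j generalizing f with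
  | zero => simp
  | succ j ih =>
    have e : deriv (fun s => c * f s) = fun s => c * deriv f s := by
      ext s
      exact deriv_const_mul c (diff_of_inf hf s)
    rw [iteratedDeriv_succ', iteratedDeriv_succ', e, ih (contDiff_inf_deriv hf)]

theorem iteratedDeriv_sum_inf {ι : Type*} (s : Finset ι) {f : ι → ℝ → ℝ}
    (hf : ∀ i, ContDiff ℝ ∞ (f i)) (j : ℕ) (t : ℝ) :
    iteratedDeriv j (fun x => ∑ i ∈ s, f i x) t = ∑ i ∈ s, iteratedDeriv j (f i) t := by
  classical
  induction s using Finset.induction_on with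
  | empty =>
    simp only [Finset.sum_empty]
    rw [show (fun _ : ℝ => (0 : ℝ)) = fun s => 0 * (fun _ : ℝ => (0 : ℝ)) s by simp,
      iteratedDeriv_const_mul_inf contDiff_const]
    simp
  | insert a s ha ih =>
    simp only [Finset.sum_insert ha]
    rw [iteratedDeriv_add_inf (hf a) (ContDiff.sum fun i _ => hf i), ih]

theorem iteratedDeriv_periodic {f : ℝ → ℝ} {T : ℝ} (hf : Function.Periodic f T) (j : ℕ) :
    Function.Periodic (iteratedDeriv j f) T := by
  induction j generalizing f with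
  | zero => simpa using hf
  | succ j ih =>
    rw [iteratedDeriv_succ']
    apply ih
    intro x
    have e : (fun y => f (y + T)) = f := funext hf
    conv_rhs => rw [← e]
    rw [deriv_comp_add_const]

/-- `a cos(kt) + b sin(kt)` -/
def trig (k a b : ℝ) (t : ℝ) : ℝ := a * cos (k * t) + b * sin (k * t)

theorem contDiff_trig (k a b : ℝ) : ContDiff ℝ ∞ (trig k a b) := by
  unfold trig
  fun_prop

theorem deriv_trig (k a b : ℝ) : deriv (trig k a b) = trig k (k * b) (-(k * a)) := by
  ext t
  have h1 : HasDerivAt (fun s : ℝ => k * s) k t := by simpa using (hasDerivAt_id t).const_mul k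
  have h := (h1.cos.const_mul a).add (h1.sin.const_mul b)
  have h2 : HasDerivAt (trig k a b) (a * (-sin (k * t) * k) + b * (cos (k * t) * k)) t := h
  rw [h2.deriv, trig]
  ring

theorem trig_periodic (k : ℕ) (a b : ℝ) : Function.Periodic (trig k a b) (2 * π) := by
  intro t
  unfold trig
  rw [show (k : ℝ) * (t + 2 * π) = k * t + k * (2 * π) by ring, cos_add_nat_mul_two_pi,
    sin_add_nat_mul_two_pi]

theorem iteratedDeriv_two_trig (k a b : ℝ) (j : ℕ) (t : ℝ) :
    iteratedDeriv (j + 2) (trig k a b) t = -k ^ 2 * iteratedDeriv j (trig k a b) t := by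
  rw [iteratedDeriv_succ', iteratedDeriv_succ', deriv_trig, deriv_trig]
  have e : trig k (k * -(k * a)) (-(k * (k * b))) = fun s => (-k ^ 2) * trig k a b s := by
    ext s
    simp only [trig]
    ring
  rw [e, iteratedDeriv_const_mul_inf (contDiff_trig k a b)]

/-- the `j`-th derivative of `f''' + f'` -/
def E (j : ℕ) (f : ℝ → ℝ) (t : ℝ) : ℝ := iteratedDeriv (j + 3) f t + iteratedDeriv (j + 1) f t

theorem E_add {f g : ℝ → ℝ} (hf : ContDiff ℝ ∞ f) (hg : ContDiff ℝ ∞ g) (j : ℕ) (t : ℝ) :
    E j (fun s => f s + g s) t = E j f t + E j g t := by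
  unfold E
  rw [iteratedDeriv_add_inf hf hg, iteratedDeriv_add_inf hf hg]
  ring

theorem E_const_mul {f : ℝ → ℝ} (hf : ContDiff ℝ ∞ f) (c : ℝ) (j : ℕ) (t : ℝ) :
    E j (fun s => c * f s) t = c * E j f t := by
  unfold E
  rw [iteratedDeriv_const_mul_inf hf, iteratedDeriv_const_mul_inf hf]
  ring

theorem E_sum {ι : Type*} (s : Finset ι) {f : ι → ℝ → ℝ}
    (hf : ∀ i, ContDiff ℝ ∞ (f i)) (j : ℕ) (t : ℝ) :
    E j (fun x => ∑ i ∈ s, f i x) t = ∑ i ∈ s, E j (f i) t := by
  unfold E
  rw [iteratedDeriv_sum_inf s hf, iteratedDeriv_sum_inf s hf, ← Finset.sum_add_distrib]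

theorem E_trig (k a b : ℝ) (j : ℕ) (t : ℝ) :
    E j (trig k a b) t = (1 - k ^ 2) * iteratedDeriv (j + 1) (trig k a b) t := by
  unfold E
  rw [show j + 3 = (j + 1) + 2 by ring, iteratedDeriv_two_trig]
  ring

theorem E_two_trig (k a b : ℝ) (j : ℕ) (t : ℝ) :
    E (j + 2) (trig k a b) t = -k ^ 2 * E j (trig k a b) t := by
  rw [E_trig, E_trig, show j + 2 + 1 = (j + 1) + 2 by ring, iteratedDeriv_two_trig]
  ring

theorem E_zero_trig (k a b : ℝ) (t : ℝ) :
    E 0 (trig k a b) t = (1 - k ^ 2) * trig k (k * b) (-(k * a)) t := by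
  rw [E_trig, zero_add, iteratedDeriv_one, deriv_trig]

theorem E_one_trig (k a b : ℝ) (t : ℝ) :
    E 1 (trig k a b) t = (1 - k ^ 2) * trig k (k * (-(k * a))) (-(k * (k * b))) t := by
  rw [E_trig, iteratedDeriv_succ', deriv_trig, iteratedDeriv_one, deriv_trig]

theorem continuous_E {f : ℝ → ℝ} (hf : ContDiff ℝ ∞ f) (j : ℕ) : Continuous (E j f) :=
  ((contDiff_inf_iteratedDeriv hf _).continuous).add (contDiff_inf_iteratedDeriv hf _).continuous

theorem E_periodic {f : ℝ → ℝ} {T : ℝ} (hf : Function.Periodic f T) (j : ℕ) :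
    Function.Periodic (E j f) T := by
  intro x
  unfold E
  rw [iteratedDeriv_periodic hf, iteratedDeriv_periodic hf]

/-- A system of `k` smooth `2π`-periodic functions `g i` such that the Wronskian of the functions
`g i ''' + g i '` has no zero. -/
structure Good {k : ℕ} (g : Fin k → ℝ → ℝ) : Prop where
  smooth : ∀ i, ContDiff ℝ ∞ (g i)
  periodic : ∀ i, Function.Periodic (g i) (2 * π)
  nondeg : ∀ t (c : Fin k → ℝ), (∀ j < k, E j (fun s => ∑ i, c i * g i s) t = 0) → c = 0

theorem trig_pair {l a b t : ℝ} (hl : l ≠ 0) (hl1 : 1 - l ^ 2 ≠ 0)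
    (h0 : E 0 (trig l a b) t = 0) (h1 : E 1 (trig l a b) t = 0) : a = 0 ∧ b = 0 := by
  rw [E_zero_trig] at h0
  rw [E_one_trig] at h1
  have h0' := (mul_eq_zero.1 h0).resolve_left hl1
  have h1' := (mul_eq_zero.1 h1).resolve_left hl1
  simp only [trig] at h0' h1'
  have p := sin_sq_add_cos_sq (l * t)
  have e0 : b * cos (l * t) - a * sin (l * t) = 0 := by
    have : l * (b * cos (l * t) - a * sin (l * t)) = 0 := by linear_combination h0'
    exact (mul_eq_zero.1 this).resolve_left hl
  have e1 : a * cos (l * t) + b * sin (l * t) = 0 := by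
    have : l ^ 2 * (a * cos (l * t) + b * sin (l * t)) = 0 := by linear_combination -h1'
    exact (mul_eq_zero.1 this).resolve_left (pow_ne_zero 2 hl)
  constructor
  · linear_combination cos (l * t) * e1 - sin (l * t) * e0 - a * p
  · linear_combination sin (l * t) * e1 + cos (l * t) * e0 - b * p

/-- The base case `k = 2`. -/
theorem good_two : Good (k := 2) ![trig 2 1 0, trig 2 0 1] where
  smooth i := by fin_cases i <;> exact contDiff_trig _ _ _
  periodic i := by
    fin_cases i
    · exact_mod_cast trig_periodic 2 1 0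
    · exact_mod_cast trig_periodic 2 0 1
  nondeg t c h := by
    have e : (fun s => ∑ i, c i * (![trig 2 1 0, trig 2 0 1] : Fin 2 → ℝ → ℝ) i s) =
        trig 2 (c 0) (c 1) := by
      ext s
      simp [Fin.sum_univ_two, trig]
    rw [e] at h
    obtain ⟨h1, h2⟩ := trig_pair (by norm_num) (by norm_num) (h 0 (by norm_num)) (h 1 (by norm_num))
    ext i
    fin_cases i
    · exact h1
    · exact h2

end

end Pool.Agent.Y525.Frenet
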